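import Pool.Agent.Helper446_MAG.Geo
import Pool.Agent.Helper446_MAG.Series

/-! # MP_46ca68_co, Q1: disproof

There is an arrangement of 12 hyperplanes in `ℝ^6` (of rank 6, with 648 chambers) with `(-1)^l χ_l < 0` for infinitely
many `l`. In coordinates `s, t, z_0, z_1, z_2, z_3` it consists of the hyperplanes `l_i = 0`, `z_i = 0`, `z_i = l_i` with
`l_0 = t`, `l_1 = s - t`, `l_2 = s`, `l_3 = s + t`.

Sketch. The chambers are the pairs of a sector of the arrangement `{l_i}` in the plane and of positions of the `z_i`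
relative to `0` and `l_i`. The metric is the Hamming metric of the sign vectors, and an explicit weighting in
`ℂ⟦q⟧` gives the magnitude `∑ χ_l q^l` as a rational function, with a pole of order 5 at `q = i` but a pole of order at
most 4 at `q = -1`. If `(-1)^l χ_l` were eventually nonnegative, the singularity at `q = -1` would be the biggest one on the
unit circle. -/

open PowerSeries

namespace Pool.Agent.Results.MP_46ca68_co.SignAlternationFails

open Pool.Agent.Helper446_MAG

theorem rankMC_eq (k l : ℕ) : rankMC arr.topeGraph k l =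
    Nat.card {x : Fin (k + 1) → T // (∀ i : Fin k, x i.castSucc ≠ x i.succ) ∧
      ∑ i : Fin k, hd (x i.castSucc) (x i.succ) = l} := by
  refine (Nat.card_congr (Equiv.subtypeEquiv (Equiv.arrowCongr (Equiv.refl _) eqv) ?_)).symm
  intro x
  simp only [Equiv.arrowCongr_apply, Equiv.coe_refl, Equiv.refl_symm, Function.comp_def, id,
    dist_eq, ne_eq, EmbeddingLike.apply_eq_iff_eq]

theorem rankMC_zero (k l : ℕ) (h : l < k) : rankMC arr.topeGraph k l = 0 := by
  rw [rankMC_eq]
  have : IsEmpty {x : Fin (k + 1) → T // (∀ i : Fin k, x i.castSucc ≠ x i.succ) ∧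
      ∑ i : Fin k, hd (x i.castSucc) (x i.succ) = l} := by
    refine ⟨?_⟩
    rintro ⟨x, h1, h2⟩
    have h3 : ∑ i : Fin k, 1 ≤ ∑ i : Fin k, hd (x i.castSucc) (x i.succ) := by
      refine Finset.sum_le_sum fun i _ => ?_
      have h4 := h1 i
      rw [Ne, ← hd_zero] at h4
      omega
    rw [h2] at h3
    simp at h3
    omega
  exact Nat.card_of_isEmpty

theorem euler_eq (l : ℕ) : ((eulerChar arr.topeGraph l : ℤ) : ℂ) = coeff l (∑ a : T, invX.w a) := by
  have h1 : eulerChar arr.topeGraph l =
      ∑ k ∈ Finset.range (l + 1), (-1 : ℤ) ^ k * (rankMC arr.topeGraph k l : ℤ) := by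
    unfold eulerChar
    apply finsum_eq_sum_of_support_subset
    intro k hk
    rw [Function.mem_support] at hk
    rw [Finset.coe_range, Set.mem_Iio]
    by_contra h
    apply hk
    rw [rankMC_zero k l (by omega)]
    simp
  rw [h1, coeff_weighting hd (fun a => (hd_zero a a).2 rfl)
    (fun a b hab => by
      rw [Ne, ← hd_zero] at hab
      omega) invX.w (fun a => invX.weighting a hd_eq)]
  push_cast
  refine Finset.sum_congr rfl fun k _ => ?_
  rw [coeff_uu, rankMC_eq]

/-- There is an arrangement of 12 hyperplanes in `ℝ^6` for which `(-1)^l χ_l < 0` for infinitely many `l`. -/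
theorem result : ∃ A : Arrangement 6, A.hyps.card = 12 ∧
    ∀ l₀ : ℕ, ∃ l ≥ l₀, (-1 : ℤ) ^ l * eulerChar A.topeGraph l < 0 := by
  refine ⟨arr, arr_card, ?_⟩
  refine exists_neg_of_limits _ Mg (2 / 15 * Complex.I) (by simp) ?_ Mg_real Mg_imag
  intro z hz
  have hz' : ‖-z‖ < 1 := by rwa [norm_neg]
  have h1 := (ev_total (-z) hz').2
  rw [value_eq z hz hz'] at h1
  convert h1 using 2 with n
  rw [← euler_eq]
  push_cast
  rw [neg_pow z n]
  ring

end Pool.Agent.Results.MP_46ca68_co.SignAlternationFails
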